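import Mathlib
import Pool.Agent.Lib.MP_b87acb_an.Defs
import Pool.Agent.Lib.MP_b87acb_an.DefsEq
import Pool.Agent.Lib.MP_b87acb_an.Upper
import Pool.Agent.Lib.MP_b87acb_an.LowerBounds

set_option autoImplicit false

open scoped ENNReal
open Filter Topology

namespace Pool.Agent.Results.MP_b87acb_an.LInfinity

open Pool.Agent.Lib.MP_b87acb_an

/-- Full answer to Q1: `limsup α(ℓ_∞^n) / √n = 1 / √2`, together with explicit two-sided bounds for
every `n ≥ 1`.  Here `Fin n → ℂ` carries the supremum norm. -/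
theorem result :
    (∀ n : ℕ, 0 < n →
      ENNReal.ofReal (Real.sqrt ((n : ℝ) / 2)) ≤ alpha (Fin n → ℂ) ∧
      alpha (Fin n → ℂ) ≤
        ENNReal.ofReal (Real.sqrt ((1 + Real.sqrt (1 + (n : ℝ) * (n - 1))) / 2))) ∧
    Filter.limsup (fun n : ℕ => alpha (Fin n → ℂ) / ENNReal.ofReal (Real.sqrt n)) Filter.atTop =
      ENNReal.ofReal (1 / Real.sqrt 2) := by
  simp only [alpha_eq]
  refine ⟨fun n hn => ⟨le_alpha_inf n hn, alpha_inf_le n⟩, ?_⟩
  refine Filter.Tendsto.limsup_eq ?_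
  have hlow : ∀ᶠ n : ℕ in atTop, ENNReal.ofReal (1 / Real.sqrt 2) ≤
      alphaOp (Fin n → ℂ) / ENNReal.ofReal (Real.sqrt n) := by
    filter_upwards [eventually_gt_atTop 0] with n hn
    have hn' : (0 : ℝ) < n := by exact_mod_cast hn
    have h1 := le_alpha_inf n hn
    have h2 : ENNReal.ofReal (1 / Real.sqrt 2) =
        ENNReal.ofReal (Real.sqrt ((n : ℝ) / 2)) / ENNReal.ofReal (Real.sqrt n) := by
      rw [← ENNReal.ofReal_div_of_pos (by positivity)]
      congr 1
      rw [Real.sqrt_div hn'.le]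
      field_simp
    rw [h2]
    exact ENNReal.div_le_div_right h1 _
  have hup : ∀ᶠ n : ℕ in atTop, alphaOp (Fin n → ℂ) / ENNReal.ofReal (Real.sqrt n) ≤
      ENNReal.ofReal (Real.sqrt ((1 + 1 / (n : ℝ)) / 2)) := by
    filter_upwards [eventually_gt_atTop 0] with n hn
    have hn' : (0 : ℝ) < n := by exact_mod_cast hn
    have hn1 : (1 : ℝ) ≤ n := by exact_mod_cast hn
    have h1 := alpha_inf_le n
    have h2 : ENNReal.ofReal (Real.sqrt ((1 + Real.sqrt (1 + (n : ℝ) * (n - 1))) / 2)) ≤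
        ENNReal.ofReal (Real.sqrt ((1 + (n : ℝ)) / 2)) := by
      refine ENNReal.ofReal_le_ofReal (Real.sqrt_le_sqrt ?_)
      have : Real.sqrt (1 + (n : ℝ) * (n - 1)) ≤ n :=
        Real.sqrt_le_iff.2 ⟨hn'.le, by nlinarith⟩
      linarith
    have h3 : ENNReal.ofReal (Real.sqrt ((1 + 1 / (n : ℝ)) / 2)) =
        ENNReal.ofReal (Real.sqrt ((1 + (n : ℝ)) / 2)) / ENNReal.ofReal (Real.sqrt n) := by
      rw [← ENNReal.ofReal_div_of_pos (by positivity)]
      congr 1
      rw [← Real.sqrt_div (by positivity)]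
      congr 1
      field_simp
      ring
    rw [h3]
    exact ENNReal.div_le_div_right (h1.trans h2) _
  refine tendsto_of_tendsto_of_tendsto_of_le_of_le' tendsto_const_nhds ?_ hlow hup
  have h1 : Tendsto (fun n : ℕ => Real.sqrt ((1 + 1 / (n : ℝ)) / 2)) atTop
      (𝓝 (Real.sqrt ((1 + 0) / 2))) :=
    (Real.continuous_sqrt.tendsto _).comp
      ((tendsto_const_nhds.add tendsto_one_div_atTop_nhds_zero_nat).div_const 2)
  have h2 : Real.sqrt ((1 + 0) / 2) = 1 / Real.sqrt 2 := by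
    rw [add_zero, Real.sqrt_div zero_le_one, Real.sqrt_one]
  rw [h2] at h1
  exact (ENNReal.continuous_ofReal.tendsto _).comp h1

end Pool.Agent.Results.MP_b87acb_an.LInfinity
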