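import Mathlib
import Pool.Agent.Lib.MP_b87acb_an.Defs
import Pool.Agent.Lib.MP_b87acb_an.DefsEq
import Pool.Agent.Lib.MP_b87acb_an.Upper
import Pool.Agent.Lib.MP_b87acb_an.LowerBounds

set_option autoImplicit false

open scoped ENNReal
open Filter Topology

namespace Pool.Agent.Results.MP_b87acb_an.LTwo

open Pool.Agent.Lib.MP_b87acb_an

/-- Full answer to Q2: `limsup α(ℓ_2^n) / n = 1 / 2`, together with explicit two-sided bounds for
every `n ≥ 1`, which coincide (with value `(n + 1) / 2`) when `n` is odd. -/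
theorem result :
    (∀ n : ℕ, 0 < n →
      ENNReal.ofReal (Real.sqrt ((((n / 2 : ℕ) : ℝ) + 1) * ((n : ℝ) - ((n / 2 : ℕ) : ℝ)))) ≤
        alpha (EuclideanSpace ℂ (Fin n)) ∧
      alpha (EuclideanSpace ℂ (Fin n)) ≤ ENNReal.ofReal (((n : ℝ) + 1) / 2)) ∧
    Filter.limsup (fun n : ℕ => alpha (EuclideanSpace ℂ (Fin n)) / (n : ℝ≥0∞)) Filter.atTop =
      1 / 2 := by
  simp only [alpha_eq]
  refine ⟨fun n hn => ⟨le_alpha_two n (n / 2) (Nat.div_le_self n 2), alpha_two_le n hn⟩, ?_⟩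
  refine Filter.Tendsto.limsup_eq ?_
  have hlow : ∀ᶠ n : ℕ in atTop, (1 / 2 : ℝ≥0∞) ≤
      alphaOp (EuclideanSpace ℂ (Fin n)) / (n : ℝ≥0∞) := by
    filter_upwards [eventually_gt_atTop 0] with n hn
    have hn' : (0 : ℝ) < n := by exact_mod_cast hn
    have h1 := le_alpha_two n (n / 2) (Nat.div_le_self n 2)
    have h2 : (1 / 2 : ℝ≥0∞) = ENNReal.ofReal ((n : ℝ) / 2) / (n : ℝ≥0∞) := by
      rw [← ENNReal.ofReal_natCast, ← ENNReal.ofReal_div_of_pos hn']
      rw [show (n : ℝ) / 2 / n = 1 / 2 by field_simp, ENNReal.ofReal_div_of_pos two_pos]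
      simp
    rw [h2]
    refine ENNReal.div_le_div_right (le_trans (ENNReal.ofReal_le_ofReal ?_) h1) _
    refine Real.le_sqrt_of_sq_le ?_
    rcases Nat.even_or_odd' n with ⟨j, hj | hj⟩
    · have e : n / 2 = j := by omega
      rw [e, hj]
      push_cast
      nlinarith [(Nat.cast_nonneg j : (0 : ℝ) ≤ j)]
    · have e : n / 2 = j := by omega
      rw [e, hj]
      push_cast
      nlinarith [(Nat.cast_nonneg j : (0 : ℝ) ≤ j)]
  have hup : ∀ᶠ n : ℕ in atTop, alphaOp (EuclideanSpace ℂ (Fin n)) / (n : ℝ≥0∞) ≤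
      ENNReal.ofReal ((1 + 1 / (n : ℝ)) / 2) := by
    filter_upwards [eventually_gt_atTop 0] with n hn
    have hn' : (0 : ℝ) < n := by exact_mod_cast hn
    have h1 := alpha_two_le n hn
    have h3 : ENNReal.ofReal ((1 + 1 / (n : ℝ)) / 2) =
        ENNReal.ofReal (((n : ℝ) + 1) / 2) / (n : ℝ≥0∞) := by
      rw [← ENNReal.ofReal_natCast, ← ENNReal.ofReal_div_of_pos hn']
      congr 1
      field_simp
    rw [h3]
    exact ENNReal.div_le_div_right h1 _
  refine tendsto_of_tendsto_of_tendsto_of_le_of_le' tendsto_const_nhds ?_ hlow hup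
  have h1 : Tendsto (fun n : ℕ => (1 + 1 / (n : ℝ)) / 2) atTop (𝓝 ((1 + 0) / 2)) :=
    (tendsto_const_nhds.add tendsto_one_div_atTop_nhds_zero_nat).div_const 2
  have h2 : (1 / 2 : ℝ≥0∞) = ENNReal.ofReal ((1 + 0) / 2) := by
    rw [add_zero, ENNReal.ofReal_div_of_pos two_pos]
    simp
  rw [h2]
  exact (ENNReal.continuous_ofReal.tendsto _).comp h1

end Pool.Agent.Results.MP_b87acb_an.LTwo
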